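import Pool.Agent.helper34.MO.SpecA

/-! Row mo:PHH: the phase of `t - i A` and the eigenvalues of `A`. -/

set_option autoImplicit false

open Complex Finset

namespace Pool.Agent.MO

theorem PHH_arg (t x : ℝ) (ht : 0 < t) : arg ((t : ℂ) - I * (x : ℂ)) = -Real.arctan (x / t) := by
  have hre : ((t : ℂ) - I * (x : ℂ)).re = t := by simp
  have him : ((t : ℂ) - I * (x : ℂ)).im = -x := by simp
  have h1 : |arg ((t : ℂ) - I * (x : ℂ))| < Real.pi / 2 := by
    rw [abs_arg_lt_pi_div_two_iff, hre]
    exact Or.inl ht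
  rw [abs_lt] at h1
  have h2 := tan_arg ((t : ℂ) - I * (x : ℂ))
  rw [hre, him] at h2
  rw [← Real.arctan_tan h1.1 h1.2, h2, neg_div, Real.arctan_neg]

theorem PHH_charpoly (n : ℕ) (B : Matrix (Fin n) (Fin n) ℂ) (ev : Fin n → ℂ)
    (hB : B.charpoly = ∏ i, (Polynomial.X - Polynomial.C (ev i))) (t : ℂ) :
    (Matrix.scalar (Fin n) t - I • B).charpoly =
      ∏ i, (Polynomial.X - Polynomial.C (t - I * ev i)) := by
  refine Polynomial.funext fun z => ?_
  rw [Matrix.eval_charpoly, Polynomial.eval_prod]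
  have e1 : Matrix.scalar (Fin n) z - (Matrix.scalar (Fin n) t - I • B) =
      (-I) • (Matrix.scalar (Fin n) (I * (z - t)) - B) := by
    ext i j
    simp only [Matrix.sub_apply, Matrix.smul_apply, Matrix.scalar_apply, smul_eq_mul]
    by_cases h : i = j
    · subst h
      simp only [Matrix.diagonal_apply_eq]
      linear_combination (z - t) * I_mul_I
    · rw [Matrix.diagonal_apply_ne _ h, Matrix.diagonal_apply_ne _ h, Matrix.diagonal_apply_ne _ h]
      ring
  rw [e1, Matrix.det_smul, ← Matrix.eval_charpoly, hB, Polynomial.eval_prod, Fintype.card_fin]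
  have e2 : (-I) ^ n = ∏ _i : Fin n, (-I) := by
    rw [Finset.prod_const, Finset.card_univ, Fintype.card_fin]
  rw [e2, ← Finset.prod_mul_distrib]
  refine Finset.prod_congr rfl fun i _ => ?_
  simp only [Polynomial.eval_sub, Polynomial.eval_X, Polynomial.eval_C]
  linear_combination (-(z - t)) * I_mul_I

theorem PHH : PHH_stmt := by
  intro A n t ht hA
  set AR : Matrix (Fin n) (Fin n) ℝ := Matrix.of (fun i j : Fin n => A i.1 j.1) with hAR
  have hH : AR.IsHermitian := by
    rw [Matrix.IsHermitian, Matrix.conjTranspose_eq_transpose_of_trivial]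
    ext i j
    exact hA j.1 i.1
  have hcR : AR.charpoly = ∏ i, (Polynomial.X - Polynomial.C (hH.eigenvalues i)) := by
    have := hH.charpoly_eq
    simpa using this
  have hcC : (AR.map (algebraMap ℝ ℂ)).charpoly =
      ∏ i, (Polynomial.X - Polynomial.C ((hH.eigenvalues i : ℝ) : ℂ)) := by
    rw [Matrix.charpoly_map, hcR, Polynomial.map_prod]
    refine Finset.prod_congr rfl fun i _ => ?_
    simp
  -- the reindexing
  set e : Fin n ≃ {x // x ∈ range n} :=
    ⟨fun i => ⟨i.1, mem_range.mpr i.2⟩, fun x => ⟨x.1, mem_range.mp x.2⟩, fun i => rfl, fun x => rfl⟩ with he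
  have hM : Matrix.reindex e e (Matrix.scalar (Fin n) (t : ℂ) - I • AR.map (algebraMap ℝ ℂ)) =
      mS (MT (fun _ => t) A) (range n) := by
    ext x y
    rw [Matrix.reindex_apply, Matrix.submatrix_apply, Matrix.sub_apply, Matrix.smul_apply, Matrix.map_apply,
      Matrix.scalar_apply]
    unfold mS MT
    rw [Matrix.of_apply, Matrix.diagonal_apply]
    have h1 : (e.symm x = e.symm y) ↔ (x.1 = y.1) := by
      rw [e.symm.injective.eq_iff, Subtype.ext_iff]
    simp only [h1]
    rfl
  have hroots : (mS (MT (fun _ => t) A) (range n)).charpoly.roots =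
      Multiset.map (fun i => (t : ℂ) - I * ((hH.eigenvalues i : ℝ) : ℂ)) Finset.univ.val := by
    rw [← hM, Matrix.charpoly_reindex, PHH_charpoly n _ _ hcC (t : ℂ), Polynomial.roots_prod]
    · simp only [Polynomial.roots_X_sub_C, Multiset.bind_singleton]
    · exact Finset.prod_ne_zero_iff.mpr fun i _ => Polynomial.X_sub_C_ne_zero _
  have hev : evA A n = Multiset.map hH.eigenvalues Finset.univ.val := by
    unfold evA
    rw [← hAR, hcR, Polynomial.roots_prod]
    · simp
    · exact Finset.prod_ne_zero_iff.mpr fun i _ => Polynomial.X_sub_C_ne_zero _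
  unfold phS Phi
  rw [hroots, hev, Multiset.map_map, Multiset.map_map]
  show ∑ i, arg ((t : ℂ) - I * ((hH.eigenvalues i : ℝ) : ℂ)) = -∑ i, Real.arctan (hH.eigenvalues i / t)
  rw [← Finset.sum_neg_distrib]
  exact Finset.sum_congr rfl fun i _ => PHH_arg t (hH.eigenvalues i) ht

end Pool.Agent.MO
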